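import Pool.Agent.Helper64.SPX.Spec

/-!
# Spectral products: limits of translates (part LAM)
-/

set_option autoImplicit false

open MeasureTheory Filter Topology Set
open scoped InnerProductSpace ENNReal

namespace Pool.Agent.Helper9.SPX.LAM

open Pool.Agent.Helper64.SPX

variable {ι : Type} [Fintype ι]

lemma bdd_integrable {H : E ι → ℂ} (hH : Bdd H) : Integrable H := by
  obtain ⟨hm, ⟨C, hC⟩, r, hr⟩ := hH
  have h1 : IntegrableOn H (Metric.closedBall 0 r) :=
    Measure.integrableOn_of_bounded (M := C) measure_closedBall_lt_top.ne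
      hm.aestronglyMeasurable (ae_of_all _ hC)
  refine (integrableOn_iff_integrable_of_support_subset ?_).1 h1
  intro x hx
  by_contra h
  refine hx (hr x ?_)
  simp only [Metric.mem_closedBall, dist_zero_right, not_le] at h
  exact h.le

lemma norm_ee (θ : ℝ) : ‖ee θ‖ = 1 := by
  unfold ee
  have : (2 * (Real.pi : ℂ) * θ * Complex.I) = ((2 * Real.pi * θ : ℝ) : ℂ) * Complex.I := by
    push_cast; ring
  rw [this, Complex.norm_exp_ofReal_mul_I]

lemma continuous_ee : Continuous ee := by
  unfold ee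
  fun_prop

lemma continuous_ft {H : E ι → ℂ} (hH : Bdd H) : Continuous (ft H) := by
  have hi := bdd_integrable hH
  unfold ft
  refine continuous_of_dominated (bound := fun x => ‖H x‖) (fun z => ?_) (fun z => ?_) hi.norm ?_
  · exact hi.aestronglyMeasurable.mul
      (Continuous.aestronglyMeasurable (continuous_ee.comp (by fun_prop)))
  · exact ae_of_all _ fun x => by rw [norm_mul, norm_ee, mul_one]
  · exact ae_of_all _ fun x => continuous_const.mul (continuous_ee.comp (by fun_prop))

/-- uniform bound for the number of points of separated sets in balls -/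
lemma card_bound {r : ℝ} (hr : 0 < r) (ρ : ℝ) : ∃ M : ℕ, ∀ (w : E ι) (A : Set (E ι)), Sep r A →
    (∀ a ∈ A, ‖w - a‖ ≤ ρ) → A.Finite ∧ A.ncard ≤ M := by
  classical
  obtain ⟨t, -, htf, ht⟩ := (isCompact_closedBall (0 : E ι) ρ).finite_cover_balls
    (show 0 < r / 2 by positivity)
  refine ⟨t.ncard, fun w A hA hw => ?_⟩
  have h1 : ∀ a ∈ A, ∃ x ∈ t, dist (w - a) x < r / 2 := by
    intro a ha
    have : w - a ∈ Metric.closedBall (0 : E ι) ρ := by simpa using hw a ha
    simpa using ht this
  choose! f hft hf using h1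
  have hinj : InjOn f A := by
    intro a ha b hb hab
    by_contra hne
    have e1 := hf a ha
    have e2 := hf b hb
    rw [← hab] at e2
    have e3 := hA a ha b hb hne
    have e4 : ‖a - b‖ = dist (w - a) (w - b) := by
      rw [dist_eq_norm, ← norm_neg (a - b)]
      congr 1; abel
    have e5 := dist_triangle_right (w - a) (w - b) (f a)
    linarith
  exact ⟨Finite.of_injOn (f := f) (fun a ha => hft a ha) hinj htf,
    ncard_le_ncard_of_injOn f hft hinj htf⟩

lemma sep_mono {r : ℝ} {A B : Set (E ι)} (h : Sep r B) (hAB : A ⊆ B) : Sep r A :=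
  fun a ha b hb => h a (hAB ha) b (hAB hb)

lemma summable_G (hA : S_AMAL) {H : E ι → ℂ} (hH : Bdd H) {r : ℝ} (hr : 0 < r)
    {Λ : Set (E ι)} (hΛ : Sep r Λ) (z : E ι) :
    Summable (fun a : Λ => ‖ft H (z - a)‖ ^ 2) := by
  obtain ⟨⟨C, hC⟩, -⟩ := hA ι H hH r hr
  refine summable_of_sum_le (c := C) (fun a => by positivity) fun s => ?_
  have h1 : Sep r ((s.map (Function.Embedding.subtype _) : Finset (E ι)) : Set (E ι)) := by
    refine sep_mono hΛ fun a ha => ?_
    simp only [Finset.coe_map, Function.Embedding.subtype_apply, mem_image, Finset.mem_coe,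
      Subtype.exists, exists_and_right, exists_eq_right] at ha
    exact ha.1
  have := hC _ h1 z
  rwa [Finset.sum_map] at this

/-- the sum over an injective finite family is at most `G` -/
lemma sum_le_G (hA : S_AMAL) {H : E ι → ℂ} (hH : Bdd H) {r : ℝ} (hr : 0 < r)
    {Λ : Set (E ι)} (hΛ : Sep r Λ) (z : E ι) {α : Type} (s : Finset α) (a : α → E ι)
    (ha : ∀ i ∈ s, a i ∈ Λ) (hinj : ∀ i ∈ s, ∀ j ∈ s, a i = a j → i = j) :
    ∑ i ∈ s, ‖ft H (z - a i)‖ ^ 2 ≤ G Λ H z := by
  classical
  set f : s → Λ := fun i => ⟨a i, ha i i.2⟩ with hf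
  have hfi : Function.Injective f := by
    intro i j hij
    have : a i = a j := congrArg Subtype.val hij
    exact Subtype.ext (hinj i i.2 j j.2 this)
  have h1 := (summable_G hA hH hr hΛ z).sum_le_tsum (Finset.univ.map ⟨f, hfi⟩)
    (fun i _ => by positivity)
  rw [Finset.sum_map] at h1
  rw [← Finset.sum_coe_sort]
  exact h1

theorem main (hA : S_AMAL) : S_LAM := by
  intro ι _ Λ r z hr hΛ
  classical
  set 𝒰 : Filter ℕ := (hyperfilter ℕ : Filter ℕ) with h𝒰
  set Λ' : Set (E ι) := {x | ∃ a : ℕ → E ι, (∀ᶠ k in 𝒰, a k ∈ Λ) ∧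
    Tendsto (fun k => a k - z k) 𝒰 (𝓝 x)} with hΛ'
  -- two different limits come from sequences which are eventually different
  have hne : ∀ (a b : ℕ → E ι) (x y : E ι), Tendsto (fun k => a k - z k) 𝒰 (𝓝 x) →
      Tendsto (fun k => b k - z k) 𝒰 (𝓝 y) → x ≠ y → ∀ᶠ k in 𝒰, a k ≠ b k := by
    intro a b x y ha hb hxy
    have h1 : Tendsto (fun k => (a k - z k) - (b k - z k)) 𝒰 (𝓝 (x - y)) := ha.sub hb
    have h2 := h1.eventually_ne (sub_ne_zero.2 hxy)
    filter_upwards [h2] with k hk h
    exact hk (by rw [h]; simp)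
  have hsep : Sep r Λ' := by
    rintro x ⟨a, haΛ, ha⟩ y ⟨b, hbΛ, hb⟩ hxy
    have h1 : Tendsto (fun k => ‖(a k - z k) - (b k - z k)‖) 𝒰 (𝓝 ‖x - y‖) := (ha.sub hb).norm
    refine ge_of_tendsto h1 ?_
    filter_upwards [haΛ, hbΛ, hne a b x y ha hb hxy] with k h2 h3 h4
    have := hΛ _ h2 _ h3 h4
    rwa [sub_sub_sub_cancel_right]
  refine ⟨Λ', hsep, fun H hH u => ?_⟩
  have hc : Continuous fun w : E ι => ‖ft H w‖ ^ 2 := (continuous_ft hH).norm.pow 2
  rw [tendsto_order]
  constructor
  · intro c hc1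
    have hs := (summable_G hA hH hr hsep u).hasSum
    obtain ⟨F, hF⟩ := (hs.eventually (lt_mem_nhds hc1)).exists
    choose a haΛ ha using fun x : Λ' => x.2
    have h1 : Tendsto (fun k => ∑ x ∈ F, ‖ft H (z k + u - a x k)‖ ^ 2) 𝒰
        (𝓝 (∑ x ∈ F, ‖ft H (u - x)‖ ^ 2)) := by
      refine tendsto_finsetSum _ fun x _ => ?_
      have h2 : Tendsto (fun k => u - (a x k - z k)) 𝒰 (𝓝 (u - x)) := tendsto_const_nhds.sub (ha x)
      have h3 := (hc.tendsto (u - x)).comp h2
      refine h3.congr fun k => ?_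
      simp only [Function.comp]
      congr 3; abel
    have h4 : ∀ᶠ k in 𝒰, ∀ x ∈ F, a x k ∈ Λ :=
      (Finset.eventually_all F).2 fun x _ => haΛ x
    have h5 : ∀ᶠ k in 𝒰, ∀ x ∈ F, ∀ y ∈ F, x ≠ y → a x k ≠ a y k := by
      refine (Finset.eventually_all F).2 fun x _ => (Finset.eventually_all F).2 fun y _ => ?_
      by_cases hxy : x = y
      · exact Eventually.of_forall fun k h => absurd hxy h
      · filter_upwards [hne (a x) (a y) x y (ha x) (ha y) (fun h => hxy (Subtype.ext h))]
          with k hk _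
        exact hk
    filter_upwards [h1.eventually (lt_mem_nhds hF), h4, h5] with k e1 e2 e3
    refine e1.trans_le (sum_le_G hA hH hr hΛ (z k + u) F (fun x => a x k) e2 ?_)
    intro i hi j hj hij
    by_contra h
    exact e3 i hi j hj h hij
  · intro c hc1
    set ε : ℝ := (c - G Λ' H u) / 2 with hε
    have hε0 : 0 < ε := by rw [hε]; linarith
    obtain ⟨-, hfar⟩ := hA ι H hH r hr
    obtain ⟨ρ, hρ⟩ := hfar ε hε0
    obtain ⟨M, hM⟩ := card_bound (ι := ι) hr ρ
    set N : ℕ → Set (E ι) := fun k => {a ∈ Λ | ‖z k + u - a‖ < ρ} with hN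
    have hNΛ : ∀ k, N k ⊆ Λ := fun k a ha => ha.1
    have hNf : ∀ k, (N k).Finite ∧ (N k).ncard ≤ M := fun k =>
      hM (z k + u) (N k) (sep_mono hΛ (hNΛ k)) fun a ha => ha.2.le
    set F : ℕ → Finset (E ι) := fun k => (hNf k).1.toFinset with hF
    have hFmem : ∀ k a, a ∈ F k ↔ a ∈ Λ ∧ ‖z k + u - a‖ < ρ := by
      intro k a
      simp [hF, hN]
    have hFcard : ∀ k, (F k).card ≤ M := by
      intro k
      have := (hNf k).2
      rwa [ncard_eq_toFinset_card _ (hNf k).1] at this
    -- the sum is nearly given by the points near `z k + u`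
    have hG : ∀ k, G Λ H (z k + u) ≤ ∑ a ∈ F k, ‖ft H (z k + u - a)‖ ^ 2 + ε := by
      intro k
      refine (summable_G hA hH hr hΛ (z k + u)).tsum_le_of_sum_le fun s => ?_
      set s' : Finset (E ι) := s.map (Function.Embedding.subtype _) with hs'
      have hs'Λ : ∀ a ∈ s', a ∈ Λ := by
        intro a ha
        rw [hs', Finset.mem_map] at ha
        obtain ⟨b, -, rfl⟩ := ha
        exact b.2
      have e0 : ∑ a ∈ s, ‖ft H (z k + u - a)‖ ^ 2 = ∑ a ∈ s', ‖ft H (z k + u - a)‖ ^ 2 := by
        rw [hs', Finset.sum_map]; rfl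
      rw [e0, ← Finset.sum_filter_add_sum_filter_not s' (fun a => ‖z k + u - a‖ < ρ)]
      refine add_le_add ?_ ?_
      · refine Finset.sum_le_sum_of_subset_of_nonneg ?_ fun _ _ _ => by positivity
        intro a ha
        rw [Finset.mem_filter] at ha
        exact (hFmem k a).2 ⟨hs'Λ a ha.1, ha.2⟩
      · refine hρ _ (sep_mono hΛ ?_) _ ?_
        · intro a ha
          rw [Finset.mem_coe, Finset.mem_filter] at ha
          exact hs'Λ a ha.1
        · intro a ha
          rw [Finset.mem_filter] at ha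
          exact not_lt.1 ha.2
    -- the number of near points is eventually constant
    obtain ⟨m, hm⟩ : ∃ m, ∀ᶠ k in 𝒰, (F k).card = m := by
      have h1 : (⋃ i ∈ (Finset.range (M + 1) : Set ℕ), {k | (F k).card = i}) ∈
          (hyperfilter ℕ : Ultrafilter ℕ) := by
        have : (⋃ i ∈ (Finset.range (M + 1) : Set ℕ), {k | (F k).card = i}) = univ := by
          ext k
          simp only [Finset.coe_range, mem_Iio, mem_iUnion, mem_ofPred_eq, exists_prop,
            exists_eq_right', mem_univ, iff_true]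
          exact Nat.lt_succ_of_le (hFcard k)
        rw [this]
        exact univ_mem
      rw [Ultrafilter.finite_biUnion_mem_iff (Finset.finite_toSet _)] at h1
      obtain ⟨m, -, hm⟩ := h1
      exact ⟨m, hm⟩
    -- enumerations
    set a : Fin m → ℕ → E ι := fun i k =>
      if h : (F k).card = m then (((F k).equivFinOfCardEq h).symm i : E ι) else 0 with ha
    have ha1 : ∀ i, ∀ᶠ k in 𝒰, a i k ∈ F k := by
      intro i
      filter_upwards [hm] with k hk
      simp only [ha, hk, dif_pos]
      exact Subtype.coe_prop _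
    have ha2 : ∀ᶠ k in 𝒰, ∀ i j, a i k = a j k → i = j := by
      filter_upwards [hm] with k hk i j hij
      simp only [ha, hk, dif_pos] at hij
      exact ((F k).equivFinOfCardEq hk).symm.injective (Subtype.ext hij)
    have ha3 : ∀ᶠ k in 𝒰, ∑ b ∈ F k, ‖ft H (z k + u - b)‖ ^ 2 =
        ∑ i, ‖ft H (z k + u - a i k)‖ ^ 2 := by
      filter_upwards [hm] with k hk
      rw [← Finset.sum_coe_sort]
      refine Fintype.sum_equiv ((F k).equivFinOfCardEq hk) _ _ fun b => ?_
      simp only [ha, hk, dif_pos, Equiv.symm_apply_apply]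
    -- limits
    have hx : ∀ i, ∃ x, Tendsto (fun k => a i k - z k) 𝒰 (𝓝 x) := by
      intro i
      have h1 : Metric.closedBall u ρ ∈ (hyperfilter ℕ).map (fun k => a i k - z k) := by
        rw [Ultrafilter.mem_map]
        filter_upwards [ha1 i] with k hk
        have := ((hFmem k _).1 hk).2
        simp only [mem_preimage, Metric.mem_closedBall, dist_eq_norm]
        rw [← norm_neg]
        refine le_of_eq_of_le ?_ this.le
        congr 1; abel
      obtain ⟨x, -, hx⟩ := (isCompact_closedBall u ρ).ultrafilter_le_nhds' _ h1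
      exact ⟨x, hx⟩
    choose x hx using hx
    have hxΛ : ∀ i, x i ∈ Λ' := by
      intro i
      refine ⟨a i, ?_, hx i⟩
      filter_upwards [ha1 i] with k hk
      exact ((hFmem k _).1 hk).1
    have hxinj : ∀ i j, x i = x j → i = j := by
      intro i j hij
      by_contra h
      have h1 : Tendsto (fun k => ‖(a i k - z k) - (a j k - z k)‖) 𝒰 (𝓝 ‖x i - x j‖) :=
        ((hx i).sub (hx j)).norm
      rw [hij, sub_self, norm_zero] at h1
      have h2 : r ≤ 0 := by
        refine ge_of_tendsto h1 ?_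
        filter_upwards [ha1 i, ha1 j, ha2] with k e1 e2 e3
        rw [sub_sub_sub_cancel_right]
        exact hΛ _ ((hFmem k _).1 e1).1 _ ((hFmem k _).1 e2).1 fun e => h (e3 i j e)
      linarith
    have h1 : Tendsto (fun k => ∑ i, ‖ft H (z k + u - a i k)‖ ^ 2) 𝒰
        (𝓝 (∑ i, ‖ft H (u - x i)‖ ^ 2)) := by
      refine tendsto_finsetSum _ fun i _ => ?_
      have h2 : Tendsto (fun k => u - (a i k - z k)) 𝒰 (𝓝 (u - x i)) :=
        tendsto_const_nhds.sub (hx i)
      have h3 := (hc.tendsto (u - x i)).comp h2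
      refine h3.congr fun k => ?_
      simp only [Function.comp]
      congr 3; abel
    have h2 : ∑ i, ‖ft H (u - x i)‖ ^ 2 ≤ G Λ' H u :=
      sum_le_G hA hH hr hsep u Finset.univ x (fun i _ => hxΛ i) fun i _ j _ => hxinj i j
    filter_upwards [h1.eventually (gt_mem_nhds (lt_of_le_of_lt h2
      (show G Λ' H u < G Λ' H u + ε by linarith))), ha3] with k e1 e2
    have := hG k
    rw [e2] at this
    have e3 : G Λ' H u + ε + ε = c := by rw [hε]; ring
    linarith

end Pool.Agent.Helper9.SPX.LAM
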