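import Pool.Agent.Helper64.SPX.Spec

/-!
# Spectral products: smallness of the differences in the mean (part SM)
-/

set_option autoImplicit false

open MeasureTheory Filter Topology Set
open scoped InnerProductSpace ENNReal

namespace Pool.Agent.Helper9.SPX.SM

open Pool.Agent.Helper64.SPX

variable {ι κ : Type} [Fintype ι] [Fintype κ]

/-- the cube of side `j` -/
def cube (ι : Type) [Fintype ι] (j : ℕ) : Set (E ι) := {x : E ι | ∀ i, |x i| ≤ (j : ℝ) / 2}

omit [Fintype ι] [Fintype κ] in
lemma fst_add (x y : E (ι ⊕ κ)) : fst (x + y) = fst x + fst y := rfl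

omit [Fintype ι] [Fintype κ] in
lemma snd_add (x y : E (ι ⊕ κ)) : snd (x + y) = snd x + snd y := rfl

lemma aut_cubeT (hS : S_SPLIT) (j : ℕ) (F : E κ → ℂ) (τ : E (ι ⊕ κ)) :
    aut (cubeT ι j F) τ = aut (ind (cube ι j)) (fst τ) * aut F (snd τ) := by
  obtain ⟨e, he, -, hm⟩ := hS ι κ
  have h1 : aut (cubeT ι j F) τ = ∫ z : E (ι ⊕ κ), (fun p : E ι × E κ =>
      (ind (cube ι j) (p.1 + fst τ) * (starRingEnd ℂ) (ind (cube ι j) p.1)) *
      (F (p.2 + snd τ) * (starRingEnd ℂ) (F p.2))) (e z) := by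
    unfold aut
    refine integral_congr_ae (Eventually.of_forall fun z => ?_)
    simp only [he, cubeT, fst_add, snd_add, map_mul, ind, cube]
    ring
  rw [h1]
  refine (hm.integral_comp e.measurableEmbedding (fun p : E ι × E κ =>
      (ind (cube ι j) (p.1 + fst τ) * (starRingEnd ℂ) (ind (cube ι j) p.1)) *
      (F (p.2 + snd τ) * (starRingEnd ℂ) (F p.2)))).trans ?_
  rw [integral_prod_mul (L := ℂ) (μ := (volume : Measure (E ι))) (ν := (volume : Measure (E κ)))
    (fun x => ind (cube ι j) (x + fst τ) * (starRingEnd ℂ) (ind (cube ι j) x))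
    (fun y => F (y + snd τ) * (starRingEnd ℂ) (F y))]
  rfl

lemma norm_aut_le {F : E κ → ℂ} {B : Set (E κ)} (hBm : MeasurableSet B)
    (hBb : Bornology.IsBounded B) {C : ℝ} (hC0 : 0 ≤ C) (hC : ∀ x, ‖F x‖ ≤ C) (hF : SuppIn F B)
    (s : E κ) :
    ‖aut F s‖ ≤ C ^ 2 * (volume (B ∩ {y | y - (-s) ∈ B})).toReal := by
  have hm : MeasurableSet (B ∩ {y | y - (-s) ∈ B}) :=
    hBm.inter (hBm.preimage (by fun_prop : Measurable fun y : E κ => y - (-s)))
  have hfin : volume (B ∩ {y | y - (-s) ∈ B}) ≠ ⊤ :=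
    ((measure_mono inter_subset_left).trans_lt hBb.measure_lt_top).ne
  unfold aut
  calc ‖∫ x, F (x + s) * (starRingEnd ℂ) (F x)‖ ≤ ∫ x, ‖F (x + s) * (starRingEnd ℂ) (F x)‖ :=
        norm_integral_le_integral_norm _
    _ ≤ ∫ x, (B ∩ {y | y - (-s) ∈ B}).indicator (fun _ => C ^ 2) x := by
        refine integral_mono_of_nonneg (Eventually.of_forall fun x => norm_nonneg _) ?_
          (Eventually.of_forall fun x => ?_)
        · exact (integrable_indicator_iff hm).2 (integrableOn_const hfin)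
        · by_cases hx : x ∈ B ∩ {y | y - (-s) ∈ B}
          · simp only [indicator_of_mem hx]
            rw [norm_mul, RCLike.norm_conj, sq]
            exact mul_le_mul (hC _) (hC _) (norm_nonneg _) hC0
          · simp only [indicator_of_notMem hx]
            rw [norm_mul, RCLike.norm_conj]
            by_cases hx1 : x ∈ B
            · have hx2 : x + s ∉ B := by
                intro h
                exact hx ⟨hx1, by simpa using h⟩
              rw [hF _ hx2]; simp
            · rw [hF _ hx1]; simp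
    _ = C ^ 2 * (volume (B ∩ {y | y - (-s) ∈ B})).toReal := by
        rw [integral_indicator hm, setIntegral_const]
        simp [Measure.real, mul_comm]

lemma inner_pair (v : E ι) (τ : E (ι ⊕ κ)) : ⟪pair v 0, τ⟫_ℝ = ⟪v, fst τ⟫_ℝ := by
  simp only [PiLp.inner_apply, pair, fst, Fintype.sum_sum_type]
  simp

lemma norm_le_add (τ : E (ι ⊕ κ)) : ‖τ‖ ≤ ‖fst τ‖ + ‖snd τ‖ := by
  rw [EuclideanSpace.norm_eq, EuclideanSpace.norm_eq, EuclideanSpace.norm_eq,
    Fintype.sum_sum_type]
  set a := ∑ i, ‖τ (Sum.inl i)‖ ^ 2 with ha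
  set c := ∑ i, ‖τ (Sum.inr i)‖ ^ 2 with hc
  have ha0 : 0 ≤ a := Finset.sum_nonneg fun i _ => sq_nonneg _
  have hc0 : 0 ≤ c := Finset.sum_nonneg fun i _ => sq_nonneg _
  change Real.sqrt (a + c) ≤ Real.sqrt a + Real.sqrt c
  rw [Real.sqrt_le_left (by positivity)]
  nlinarith [Real.sq_sqrt ha0, Real.sq_sqrt hc0, Real.sqrt_nonneg a, Real.sqrt_nonneg c,
    mul_nonneg (Real.sqrt_nonneg a) (Real.sqrt_nonneg c)]

lemma ee_int (m : ℤ) : ee (m : ℝ) = 1 := by
  unfold ee
  rw [Complex.exp_eq_one_iff]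
  exact ⟨m, by push_cast; ring⟩

lemma continuous_ee : Continuous ee := by
  unfold ee
  fun_prop

omit [Fintype ι] [Fintype κ] in
lemma continuous_fst' : Continuous (fst : E (ι ⊕ κ) → E ι) := by
  unfold fst
  exact (PiLp.continuous_toLp 2 _).comp (continuous_pi fun i => by fun_prop)

omit [Fintype ι] [Fintype κ] in
lemma continuous_snd' : Continuous (snd : E (ι ⊕ κ) → E κ) := by
  unfold snd
  exact (PiLp.continuous_toLp 2 _).comp (continuous_pi fun i => by fun_prop)

lemma continuous_P (S : Finset (E ι)) : Continuous (P S) := by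
  unfold P
  refine continuous_finsetSum _ fun a _ => continuous_ee.comp (by fun_prop)

/-- the cube is bounded -/
lemma cube_bdd (j : ℕ) : ∃ R : ℝ, 0 ≤ R ∧ ∀ x ∈ cube ι j, ‖x‖ ≤ R := by
  refine ⟨Real.sqrt (∑ _i : ι, ((j : ℝ) / 2) ^ 2), Real.sqrt_nonneg _, fun x hx => ?_⟩
  rw [EuclideanSpace.norm_eq]
  refine Real.sqrt_le_sqrt (Finset.sum_le_sum fun i _ => ?_)
  have := hx i
  rw [Real.norm_eq_abs]
  exact pow_le_pow_left₀ (abs_nonneg _) this 2

lemma measurableSet_cube (j : ℕ) : MeasurableSet (cube ι j) := by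
  have : cube ι j = ⋂ i, {x : E ι | |x i| ≤ (j : ℝ) / 2} := by
    ext x; simp [cube]
  rw [this]
  exact MeasurableSet.iInter fun i => (isClosed_le (by fun_prop) (by fun_prop)).measurableSet

theorem main (hWC : S_WC) (hSP : S_SPLIT) : S_SM := by
  intro ι κ _ _ B S ν b hBm hBb hB0 hν hlim hlat v hv j F hF hFB
  obtain ⟨hFm, ⟨C, hC⟩, -⟩ := hF
  have hC0 : 0 ≤ C := (norm_nonneg _).trans (hC 0)
  obtain ⟨hwc, hws, hwt, -⟩ := hWC κ B hBm hBb hB0
  obtain ⟨R, hR0, hR⟩ := cube_bdd (ι := ι) j
  have hcb : Bornology.IsBounded (cube ι j) :=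
    (Metric.isBounded_closedBall (x := (0 : E ι)) (r := R)).subset
      fun x hx => by simpa using hR x hx
  -- the bump function
  set φ : E ι → ℝ := fun t => max 0 (min 1 (2 * R + 1 - ‖t‖)) with hφ
  have hφc : Continuous φ := by fun_prop
  have hφ0 : ∀ t, 0 ≤ φ t := fun t => le_max_left _ _
  have hφ1 : ∀ t, φ t ≤ 1 := fun t => max_le zero_le_one (min_le_left _ _)
  have hφz : ∀ t, 2 * R + 1 < ‖t‖ → φ t = 0 := by
    intro t ht
    simp only [hφ]
    rw [max_eq_left]
    exact (min_le_right _ _).trans (by linarith)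
  -- bounds
  set V : ℝ := (volume (cube ι j)).toReal with hV
  have hV0 : 0 ≤ V := ENNReal.toReal_nonneg
  have h1 : ∀ t, ‖aut (ind (cube ι j)) t‖ ≤ V * φ t := by
    intro t
    have h2 : ‖aut (ind (cube ι j)) t‖ ≤ 1 ^ 2 *
        (volume (cube ι j ∩ {y | y - (-t) ∈ cube ι j})).toReal := by
      refine norm_aut_le (measurableSet_cube j) hcb zero_le_one (fun x => ?_) (fun x hx => ?_) t
      · unfold ind
        by_cases hx : x ∈ cube ι j
        · simp [indicator_of_mem hx]
        · simp [indicator_of_notMem hx]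
      · simp [ind, indicator_of_notMem hx]
    rw [one_pow, one_mul] at h2
    refine h2.trans ?_
    by_cases ht : ‖t‖ ≤ 2 * R
    · have h3 : φ t = 1 := by
        simp only [hφ]
        rw [min_eq_left (by linarith), max_eq_right zero_le_one]
      rw [h3, mul_one]
      exact ENNReal.toReal_mono hcb.measure_lt_top.ne (measure_mono inter_subset_left)
    · have h3 : cube ι j ∩ {y | y - (-t) ∈ cube ι j} = ∅ := by
        ext y
        simp only [mem_inter_iff, mem_ofPred_eq, mem_empty_iff_false, iff_false, not_and]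
        intro hy hy2
        have e1 := hR _ hy
        have e2 := hR _ hy2
        have e3 : ‖t‖ ≤ ‖y - (-t)‖ + ‖y‖ := by
          calc ‖t‖ = ‖(y - (-t)) - y‖ := by congr 1; abel
            _ ≤ _ := norm_sub_le _ _
        push Not at ht
        linarith
      rw [h3]
      simp only [measure_empty, ENNReal.toReal_zero]
      exact mul_nonneg hV0 (hφ0 t)
  set W : ℝ := (volume B).toReal with hW
  have hW0 : 0 < W := ENNReal.toReal_pos hB0.ne' hBb.measure_lt_top.ne
  have h2 : ∀ s, ‖aut F s‖ ≤ C ^ 2 * W * wt B s := by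
    intro s
    refine (norm_aut_le hBm hBb hC0 hC hFB s).trans ?_
    rw [← (hwt s).2.2, mul_assoc]
    refine mul_le_mul_of_nonneg_left ?_ (sq_nonneg _)
    unfold wt
    rw [mul_div_cancel₀ _ hW0.ne']
  -- the test function
  set K : ℝ := V ^ 2 * (C ^ 2 * W) ^ 2 with hK
  have hK0 : 0 ≤ K := by positivity
  set f : E ι → ℝ := fun t => K * φ t * ‖ee ⟪v, t⟫_ℝ - 1‖ ^ 2 with hf
  have hfc : Continuous f := by
    have : Continuous fun t : E ι => ee ⟪v, t⟫_ℝ := continuous_ee.comp (by fun_prop)
    fun_prop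
  have hfs : HasCompactSupport f := by
    refine HasCompactSupport.intro (isCompact_closedBall (0 : E ι) (2 * R + 1)) fun x hx => ?_
    have : φ x = 0 := hφz x (by simpa using hx)
    simp [hf, this]
  have hfi : ∫ t, f t ∂ν = 0 := by
    refine integral_eq_zero_of_ae ?_
    have : ∀ᵐ t ∂ν, t ∈ lat b := by
      rw [ae_iff]
      exact hlat
    filter_upwards [this] with t ht
    obtain ⟨c, rfl⟩ := ht
    choose m hm using hv
    have e1 : ⟪v, ∑ i, (c i : ℝ) • b i⟫_ℝ = ((∑ i, c i * m i : ℤ) : ℝ) := by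
      rw [inner_sum]
      push_cast
      refine Finset.sum_congr rfl fun i _ => ?_
      rw [inner_smul_right, hm i]
    simp only [hf, e1, ee_int]
    simp
  have hl := hlim f hfc hfs
  rw [hfi] at hl
  refine squeeze_zero (fun k => ?_) (fun k => ?_) hl
  · exact mul_nonneg (one_div_nonneg.2 ENNReal.toReal_nonneg)
      (integral_nonneg fun τ => by positivity)
  · refine mul_le_mul_of_nonneg_left ?_ (one_div_nonneg.2 ENNReal.toReal_nonneg)
    refine integral_mono_of_nonneg (Eventually.of_forall fun τ => by positivity) ?_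
      (Eventually.of_forall fun τ => ?_)
    · refine Continuous.integrable_of_hasCompactSupport ?_ ?_
      · exact ((hfc.comp continuous_fst').mul (hwc.comp continuous_snd')).mul
          ((continuous_P _).norm.pow 2)
      · obtain ⟨R2, hR2⟩ := (hws.isCompact.isBounded).exists_norm_le
        refine HasCompactSupport.intro
          (isCompact_closedBall (0 : E (ι ⊕ κ)) (2 * R + 1 + R2)) fun x hx => ?_
        have h3 : 2 * R + 1 + R2 < ‖x‖ := by simpa using hx
        have h4 := norm_le_add x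
        by_cases h5 : 2 * R + 1 < ‖fst x‖
        · simp [hf, hφz _ h5]
        · have h6 : snd x ∉ tsupport (wt B) := by
            intro h
            have := hR2 _ h
            linarith
          rw [image_eq_zero_of_notMem_tsupport h6]
          simp
    · have e1 := h1 (fst τ)
      have e2 := h2 (snd τ)
      have e3 := hwt (snd τ)
      simp only [hf]
      rw [aut_cubeT hSP, inner_pair, norm_mul]
      refine mul_le_mul_of_nonneg_right ?_ (by positivity)
      have e4 : (‖aut (ind (cube ι j)) (fst τ)‖ * ‖aut F (snd τ)‖) ^ 2 ≤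
          K * φ (fst τ) * wt B (snd τ) := by
        calc (‖aut (ind (cube ι j)) (fst τ)‖ * ‖aut F (snd τ)‖) ^ 2
            ≤ ((V * φ (fst τ)) * (C ^ 2 * W * wt B (snd τ))) ^ 2 := by
              refine pow_le_pow_left₀ (by positivity) ?_ 2
              exact mul_le_mul e1 e2 (norm_nonneg _) (mul_nonneg hV0 (hφ0 _))
          _ = K * (φ (fst τ) * φ (fst τ)) * (wt B (snd τ) * wt B (snd τ)) := by
              rw [hK]; ring
          _ ≤ K * (φ (fst τ) * 1) * (wt B (snd τ) * 1) := by
              have := hφ0 (fst τ)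
              have := hφ1 (fst τ)
              refine mul_le_mul ?_ ?_ (mul_nonneg e3.1 e3.1) ?_
              · exact mul_le_mul_of_nonneg_left (mul_le_mul_of_nonneg_left (hφ1 _) (hφ0 _)) hK0
              · exact mul_le_mul_of_nonneg_left e3.2.1 e3.1
              · exact mul_nonneg hK0 (by simpa using hφ0 (fst τ))
          _ = _ := by ring
      calc _ ≤ K * φ (fst τ) * wt B (snd τ) * ‖ee ⟪v, fst τ⟫_ℝ - 1‖ ^ 2 :=
            mul_le_mul_of_nonneg_right e4 (sq_nonneg _)
        _ = _ := by ring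

end Pool.Agent.Helper9.SPX.SM
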